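import Pool.Agent.Helper79.PN.Lem

set_option autoImplicit false

/-!
LOW: the special faces and the edges.
-/

open scoped Classical

namespace Pool.Agent.Helper52.PN

open Pool.Agent.Helper79.PN

private theorem low_split {f1 f2 f3 f4 f5 f6 : Lam × ZMod 5 → ℝ} (h1 : Summable f1)
    (h2 : Summable f2) (h3 : Summable f3) (h4 : Summable f4) (h5 : Summable f5)
    (h6 : Summable f6) :
    ∑' z, (2 * f1 z + 2 * f2 z + (f3 z + f4 z) + (f5 z + f6 z)) =
      2 * ∑' z, f1 z + 2 * ∑' z, f2 z + (∑' z, f3 z + ∑' z, f4 z) +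
        (∑' z, f5 z + ∑' z, f6 z) := by
  have e1 := (h1.mul_left 2).hasSum
  have e2 := (h2.mul_left 2).hasSum
  rw [tsum_mul_left] at e1 e2
  exact (((e1.add e2).add (h3.hasSum.add h4.hasSum)).add (h5.hasSum.add h6.hasSum)).tsum_eq

private theorem ind_abs (p : Prop) : |ind p| ≤ 1 := by
  rw [abs_of_nonneg (ind_nonneg p)]
  exact ind_le_one p

private theorem low_shift {P : Pen} {K : Lam} {j : ZMod 5} {m : ZMod 5} (h : X1 P (K - e j) m) :
    P.n K = 2 := by
  have h1 := h.1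
  rw [P.n_sub] at h1
  omega

private theorem low_shift' {P : Pen} {K : Lam} {j : ZMod 5} {m : ZMod 5} (h : T1 P (K - e j) m) :
    P.n K = 2 := by
  have h1 := h.1
  rw [P.n_sub] at h1
  omega

theorem st_LOW (hS : ST_SMT) (h12 : ST_E12) (h23 : ST_E23) : ST_LOW := by
  obtain ⟨-, hsum, -, hsh⟩ := hS
  intro P a ha h4
  have nz : ∀ K, a K ≠ 0 → InV P K ∧ ¬ IsT P K := by
    intro K h
    constructor
    · by_contra h'
      exact h (h4 K (Or.inl h'))
    · intro h'
      exact h (h4 K (Or.inr h'))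
  -- the six functions
  let F1 : Lam × ZMod 5 → ℝ := fun z => ind (X1 P z.1 (z.2 + 2)) * (a z.1 * a (z.1 + e z.2))
  let F2 : Lam × ZMod 5 → ℝ := fun z => ind (X1 P z.1 (z.2 - 2)) * (a z.1 * a (z.1 + e z.2))
  let F3 : Lam × ZMod 5 → ℝ := fun z =>
    ind (X1 P (z.1 - e (z.2 + 2)) (z.2 - 1)) * (a z.1 * a (z.1 + e z.2))
  let F4 : Lam × ZMod 5 → ℝ := fun z =>
    ind (T1 P (z.1 - e (z.2 + 2)) (z.2 + 1)) * (a z.1 * a (z.1 + e z.2))
  let F5 : Lam × ZMod 5 → ℝ := fun z =>
    ind (X1 P (z.1 - e (z.2 - 2)) (z.2 + 1)) * (a z.1 * a (z.1 + e z.2))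
  let F6 : Lam × ZMod 5 → ℝ := fun z =>
    ind (T1 P (z.1 - e (z.2 - 2)) (z.2 - 1)) * (a z.1 * a (z.1 + e z.2))
  have key : ∀ c : Lam × ZMod 5 → ℝ, (∀ z, |c z| ≤ 1) →
      Summable fun z : Lam × ZMod 5 => c z * (a z.1 * a (z.1 + e z.2)) := by
    intro c hc
    have h := hsum a a c (fun _ => 0) (fun m => e m) ha ha hc
    simpa only [add_zero] using h
  have s1 : Summable F1 := key _ fun z => ind_abs _
  have s2 : Summable F2 := key _ fun z => ind_abs _
  have s3 : Summable F3 := key _ fun z => ind_abs _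
  have s4 : Summable F4 := key _ fun z => ind_abs _
  have s5 : Summable F5 := key _ fun z => ind_abs _
  have s6 : Summable F6 := key _ fun z => ind_abs _
  -- the shifted functions
  let G1 : Lam × ZMod 5 → ℝ := fun z => ind (X1 P z.1 z.2) * (a z.1 * a (z.1 + e (z.2 - 2)))
  let G2 : Lam × ZMod 5 → ℝ := fun z => ind (X1 P z.1 z.2) * (a z.1 * a (z.1 + e (z.2 + 2)))
  let G3 : Lam × ZMod 5 → ℝ := fun z =>
    ind (X1 P z.1 z.2) * (a (z.1 + e (z.2 - 2)) * a (z.1 + e (z.2 + 1) + e (z.2 - 2)))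
  let G4 : Lam × ZMod 5 → ℝ := fun z =>
    ind (T1 P z.1 z.2) * (a (z.1 + e (z.2 + 1)) * a (z.1 + e (z.2 + 1) + e (z.2 - 1)))
  let G5 : Lam × ZMod 5 → ℝ := fun z =>
    ind (X1 P z.1 z.2) * (a (z.1 + e (z.2 + 2)) * a (z.1 + e (z.2 - 1) + e (z.2 + 2)))
  let G6 : Lam × ZMod 5 → ℝ := fun z =>
    ind (T1 P z.1 z.2) * (a (z.1 + e (z.2 - 1)) * a (z.1 + e (z.2 + 1) + e (z.2 - 1)))
  have g1 : Summable G1 := by
    have h := hsum a a (fun z => ind (X1 P z.1 z.2)) (fun _ => 0) (fun m => e (m - 2)) ha ha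
      (fun z => ind_abs _)
    simpa only [add_zero] using h
  have g2 : Summable G2 := by
    have h := hsum a a (fun z => ind (X1 P z.1 z.2)) (fun _ => 0) (fun m => e (m + 2)) ha ha
      (fun z => ind_abs _)
    simpa only [add_zero] using h
  have g3 : Summable G3 := by
    have h := hsum a a (fun z => ind (X1 P z.1 z.2)) (fun m => e (m - 2))
      (fun m => e (m + 1) + e (m - 2)) ha ha (fun z => ind_abs _)
    simpa only [← add_assoc] using h
  have g4 : Summable G4 := by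
    have h := hsum a a (fun z => ind (T1 P z.1 z.2)) (fun m => e (m + 1))
      (fun m => e (m + 1) + e (m - 1)) ha ha (fun z => ind_abs _)
    simpa only [← add_assoc] using h
  have g5 : Summable G5 := by
    have h := hsum a a (fun z => ind (X1 P z.1 z.2)) (fun m => e (m + 2))
      (fun m => e (m - 1) + e (m + 2)) ha ha (fun z => ind_abs _)
    simpa only [← add_assoc] using h
  have g6 : Summable G6 := by
    have h := hsum a a (fun z => ind (T1 P z.1 z.2)) (fun m => e (m - 1))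
      (fun m => e (m + 1) + e (m - 1)) ha ha (fun z => ind_abs _)
    simpa only [← add_assoc] using h
  have e1 : ∑' z, G1 z = ∑' z, F1 z := by
    rw [← hsh F1 (fun _ => 0) (-2)]
    refine tsum_congr fun z => ?_
    simp only [F1, G1, add_zero, ← sub_eq_add_neg, sub_add_cancel]
  have e2 : ∑' z, G2 z = ∑' z, F2 z := by
    rw [← hsh F2 (fun _ => 0) 2]
    refine tsum_congr fun z => ?_
    simp only [F2, G2, add_zero, add_sub_cancel_right]
  have e3 : ∑' z, G3 z = ∑' z, F3 z := by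
    rw [← hsh F3 (fun m => e (m - 2)) 1]
    refine tsum_congr fun z => ?_
    simp only [F3, G3, p1p2, add_sub_cancel_right]
    rw [add_right_comm z.1 (e (z.2 + 1)) (e (z.2 - 2))]
  have e4 : ∑' z, G4 z = ∑' z, F4 z := by
    rw [← hsh F4 (fun m => e (m + 1)) (-1)]
    refine tsum_congr fun z => ?_
    simp only [F4, G4, ← sub_eq_add_neg, m1p2, add_sub_cancel_right, sub_add_cancel]
  have e5 : ∑' z, G5 z = ∑' z, F5 z := by
    rw [← hsh F5 (fun m => e (m + 2)) (-1)]
    refine tsum_congr fun z => ?_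
    simp only [F5, G5, ← sub_eq_add_neg, m1m2, add_sub_cancel_right, sub_add_cancel]
    rw [add_right_comm z.1 (e (z.2 - 1)) (e (z.2 + 2))]
  have e6 : ∑' z, G6 z = ∑' z, F6 z := by
    rw [← hsh F6 (fun m => e (m - 1)) 1]
    refine tsum_congr fun z => ?_
    simp only [F6, G6, p1m2, add_sub_cancel_right]
    rw [add_right_comm z.1 (e (z.2 + 1)) (e (z.2 - 1))]
  have h1 : SL P a = ∑' z, (2 * G1 z + 2 * G2 z + (G3 z + G4 z) + (G5 z + G6 z)) := by
    unfold SL
    refine tsum_congr fun z => ?_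
    simp only [G1, G2, G3, G4, G5, G6]
    ring
  have h2 : 2 * ED P a = ∑' z, (2 * F1 z + 2 * F2 z + (F3 z + F4 z) + (F5 z + F6 z)) := by
    unfold ED
    rw [← tsum_mul_left]
    refine tsum_congr fun z => ?_
    obtain ⟨K, i⟩ := z
    simp only [F1, F2, F3, F4, F5, F6]
    by_cases hz : a K * a (K + e i) = 0
    · rw [hz]
      ring
    have hK : a K ≠ 0 := fun h => hz (by rw [h, zero_mul])
    have hK' : a (K + e i) ≠ 0 := fun h => hz (by rw [h, mul_zero])
    obtain ⟨v1, v2⟩ := nz _ hK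
    obtain ⟨v3, v4⟩ := nz _ hK'
    have t1 : ind (X1 P K (i + 2)) + ind (X1 P K (i - 2)) = ind (P.n K = 1) := by
      by_cases hn : P.n K = 1
      · rw [h12 P K i hn v1 v2 v3 v4, ind_true hn]
      · rw [ind_false hn, ind_false (fun h => hn h.1), ind_false (fun h => hn h.1), add_zero]
    have t2 : ind (X1 P (K - e (i + 2)) (i - 1)) + ind (T1 P (K - e (i + 2)) (i + 1)) =
        ind (P.n K = 2 ∧ P.h K i < -1 / 2) := by
      by_cases hn : P.n K = 2
      · rw [(h23 P K i hn v1 v2 v3 v4).1]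
        simp only [hn, true_and]
      · have q0 : ¬ (P.n K = 2 ∧ P.h K i < -1 / 2) := fun h => hn h.1
        have q1 : ¬ X1 P (K - e (i + 2)) (i - 1) := fun h => hn (low_shift h)
        have q2 : ¬ T1 P (K - e (i + 2)) (i + 1) := fun h => hn (low_shift' h)
        rw [ind_false q0, ind_false q1, ind_false q2, add_zero]
    have t3 : ind (X1 P (K - e (i - 2)) (i + 1)) + ind (T1 P (K - e (i - 2)) (i - 1)) =
        ind (P.n K = 2 ∧ P.h K i < -1 / 2) := by
      by_cases hn : P.n K = 2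
      · rw [(h23 P K i hn v1 v2 v3 v4).2]
        simp only [hn, true_and]
      · have q0 : ¬ (P.n K = 2 ∧ P.h K i < -1 / 2) := fun h => hn h.1
        have q1 : ¬ X1 P (K - e (i - 2)) (i + 1) := fun h => hn (low_shift h)
        have q2 : ¬ T1 P (K - e (i - 2)) (i - 1) := fun h => hn (low_shift' h)
        rw [ind_false q0, ind_false q1, ind_false q2, add_zero]
    linear_combination (-2 * (a K * a (K + e i))) * t1 - (a K * a (K + e i)) * t2 -
      (a K * a (K + e i)) * t3
  rw [h1, h2, low_split g1 g2 g3 g4 g5 g6, low_split s1 s2 s3 s4 s5 s6, e1, e2, e3, e4, e5, e6]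

end Pool.Agent.Helper52.PN
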